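import Mathlib

/-!
# A minimal (m,n)-product of power sets that is not m-representable

Let `n` be an infinite cardinal, `m ≥ n⁺⁺`, let `T` and `K` be sets with `n⁺` and `n⁺⁺` elements. The
minimal `(m, n)`-product of `T` copies of the power set of `K` is not `m`-representable: in the
product the join over `t` of the elements `i t {ξ}` is `1` for each `ξ` in `K`, while a point of a
set `X` outside a suitable member of an `m`-ideal would be a function from a subset of `T` onto `K`.
-/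

set_option autoImplicit false

open Cardinal

namespace Pool.Agent.Results.MP_705fed_lc.NotRepresentable

universe u v

/-- A Boolean `m`-algebra: every subset with at most `m` elements has a join and a meet. -/
def IsMAlg (m : Cardinal.{u}) (B : Type u) [BooleanAlgebra B] : Prop :=
  ∀ S : Set B, #S ≤ m → (∃ a, IsLUB S a) ∧ ∃ a, IsGLB S a

/-- An `m`-homomorphism: it preserves complements and the joins and meets of the subsets with at
most `m` elements. -/
structure IsMHom (m : Cardinal.{u}) {A B : Type u} [BooleanAlgebra A] [BooleanAlgebra B]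
    (f : A → B) : Prop where
  compl : ∀ a, f aᶜ = (f a)ᶜ
  join : ∀ S : Set A, #S ≤ m → ∀ a, IsLUB S a → IsLUB (f '' S) (f a)
  meet : ∀ S : Set A, #S ≤ m → ∀ a, IsGLB S a → IsGLB (f '' S) (f a)

/-- An `m`-subalgebra: closed under complements and under the joins and meets of subsets with at
most `m` elements. -/
structure IsMSub (m : Cardinal.{u}) {B : Type u} [BooleanAlgebra B] (D : Set B) : Prop where
  compl : ∀ a ∈ D, aᶜ ∈ D
  join : ∀ S ⊆ D, #S ≤ m → ∀ a, IsLUB S a → a ∈ D
  meet : ∀ S ⊆ D, #S ≤ m → ∀ a, IsGLB S a → a ∈ D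

/-- `F` is an `m`-field of subsets of `X`. -/
structure IsMField (m : Cardinal.{u}) {X : Type v} (F : Set (Set X)) : Prop where
  compl : ∀ a ∈ F, aᶜ ∈ F
  union : ∀ (ι : Type u) (a : ι → Set X), #ι ≤ m → (∀ i, a i ∈ F) → (⋃ i, a i) ∈ F

/-- `Δ` is an `m`-ideal of the `m`-field `F`. -/
structure IsMIdeal (m : Cardinal.{u}) {X : Type v} (F Δ : Set (Set X)) : Prop where
  sub : Δ ⊆ F
  down : ∀ a ∈ Δ, ∀ b ∈ F, b ⊆ a → b ∈ Δ
  union : ∀ (ι : Type u) (a : ι → Set X), #ι ≤ m → (∀ i, a i ∈ Δ) → (⋃ i, a i) ∈ Δ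

/-- `B` is `m`-representable: it is isomorphic to `F / Δ` for some `m`-field `F` of subsets of a set
`X` and some `m`-ideal `Δ` of `F`. (The isomorphism is given by the composition `h` with the quotient
map: `h` maps `F` onto `B`, preserves unions and complements, and its kernel is `Δ`.) -/
def IsMRepresentable (m : Cardinal.{u}) (B : Type u) [BooleanAlgebra B] : Prop :=
  ∃ (X : Type v) (F Δ : Set (Set X)), IsMField m F ∧ IsMIdeal m F Δ ∧
    ∃ h : Set X → B, (∀ b, ∃ a ∈ F, h a = b) ∧ (∀ a ∈ F, h aᶜ = (h a)ᶜ) ∧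
      (∀ a ∈ F, ∀ b ∈ F, h (a ∪ b) = h a ⊔ h b) ∧ ∀ a ∈ F, h a = ⊥ ↔ a ∈ Δ

/-- `B` with the maps `i t` is an `(m, n)`-product of the algebras `A t`. -/
structure IsProduct (m n : Cardinal.{u}) {T : Type u} (A : T → Type u)
    [∀ t, BooleanAlgebra (A t)] (B : Type u) [BooleanAlgebra B] (i : ∀ t, A t → B) : Prop where
  malg : IsMAlg m B
  mhom : ∀ t, IsMHom m (i t)
  inj : ∀ t, Function.Injective (i t)
  nonvanishing : ∀ T' : Set T, #T' ≤ n → ∀ a : ∀ t, A t, (∀ t ∈ T', i t (a t) ≠ ⊥) →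
    ∀ c, IsGLB ((fun t => i t (a t)) '' T') c → c ≠ ⊥
  generates : ∀ D : Set B, IsMSub m D → (∀ t a, i t a ∈ D) → D = Set.univ

/-- `B` with the maps `i t` is a minimal `(m, n)`-product of the algebras `A t`. -/
structure IsMinimalProduct (m n : Cardinal.{u}) {T : Type u} (A : T → Type u)
    [∀ t, BooleanAlgebra (A t)] (B : Type u) [BooleanAlgebra B] (i : ∀ t, A t → B) : Prop
    extends IsProduct m n A B i where
  minimal : ∀ b : B, b ≠ ⊥ → ∃ (T' : Set T) (a : ∀ t, A t) (c : B), #T' ≤ n ∧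
    IsGLB ((fun t => i t (a t)) '' T') c ∧ c ≠ ⊥ ∧ c ≤ b

/-! ### Power sets are representable -/

theorem isMRepresentable_set (m : Cardinal.{u}) (K : Type u) :
    IsMRepresentable.{u, u} m (Set K) := by
  refine ⟨K, Set.univ, {∅}, ⟨fun _ _ => trivial, fun _ _ _ _ => trivial⟩,
    ⟨fun _ _ => trivial, ?_, ?_⟩, id, fun b => ⟨b, trivial, rfl⟩, fun _ _ => rfl,
    fun _ _ _ _ => rfl, fun _ _ => Iff.rfl⟩
  · rintro a rfl b - hb
    exact Set.subset_empty_iff.1 hb
  · intro ι a _ h
    rw [Set.mem_singleton_iff, Set.iUnion_eq_empty]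
    exact h

theorem isMAlg_set (m : Cardinal.{u}) (K : Type u) : IsMAlg m (Set K) :=
  fun S _ => ⟨⟨_, isLUB_sSup S⟩, ⟨_, isGLB_sInf S⟩⟩

/-! ### Non-representability -/

section neg

variable {m n : Cardinal.{u}} {T K B : Type u} [BooleanAlgebra B] {i : T → Set K → B}

theorem IsMHom.bot {A B : Type u} [BooleanAlgebra A] [BooleanAlgebra B] {f : A → B}
    (h : IsMHom m f) : f ⊥ = ⊥ := by
  have h1 := h.join ∅ (by simp) ⊥ isLUB_empty
  rw [Set.image_empty] at h1
  exact h1.unique isLUB_empty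

theorem IsMHom.top {A B : Type u} [BooleanAlgebra A] [BooleanAlgebra B] {f : A → B}
    (h : IsMHom m f) : f ⊤ = ⊤ := by
  have := h.compl ⊥
  rwa [compl_bot, h.bot, compl_bot] at this

theorem finite_le {m : Cardinal.{u}} (hm : ℵ₀ ≤ m) {A : Type u} {S : Set A} (hS : S.Finite) :
    #S ≤ m := (Cardinal.lt_aleph0_iff_set_finite.2 hS).le.trans hm

theorem IsMHom.inf (hm : ℵ₀ ≤ m) {A B : Type u} [BooleanAlgebra A] [BooleanAlgebra B] {f : A → B}
    (h : IsMHom m f) (a b : A) : f (a ⊓ b) = f a ⊓ f b := by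
  have h1 := h.meet {a, b} (finite_le hm (Set.toFinite _)) (a ⊓ b) isGLB_pair
  rw [Set.image_pair] at h1
  exact h1.unique isGLB_pair

theorem join_eq_top (hn : ℵ₀ ≤ n) (hnm : n ≤ m) (hT : n < #T) [Nonempty K]
    (h : IsMinimalProduct m n (fun _ : T => Set K) B i) (ξ : K) :
    IsLUB (Set.range fun t => i t {ξ}) ⊤ := by
  classical
  refine ⟨fun _ _ => le_top, fun w hw => ?_⟩
  by_contra hne
  have hwc : wᶜ ≠ ⊥ := by
    intro h0
    apply hne
    rw [compl_eq_bot] at h0
    rw [h0]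
  obtain ⟨T', a, c, hT', hc, hc0, hcw⟩ := h.minimal wᶜ hwc
  obtain ⟨t, ht⟩ : ∃ t, t ∉ T' := by
    by_contra hcon
    push Not at hcon
    have : T' = Set.univ := Set.eq_univ_of_forall hcon
    rw [this, Cardinal.mk_univ] at hT'
    exact absurd hT' (not_le.2 hT)
  let a' : T → Set K := Function.update a t {ξ}
  have hT'' : #(insert t T' : Set T) ≤ n := by
    refine (Cardinal.mk_insert_le).trans ?_
    exact Cardinal.add_le_of_le hn hT' (Cardinal.one_lt_aleph0.le.trans hn)
  obtain ⟨c'', hc''⟩ := (h.malg ((fun s => i s (a' s)) '' (insert t T'))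
    (Cardinal.mk_image_le.trans (hT''.trans hnm))).2
  have h1 : c'' ≠ ⊥ := by
    refine h.nonvanishing _ hT'' a' ?_ c'' hc''
    intro s hs h0
    rcases Set.mem_insert_iff.1 hs with rfl | hs
    · simp only [a', Function.update_self] at h0
      have := h.inj s (h0.trans (h.mhom s).bot.symm)
      exact Set.singleton_ne_empty ξ this
    · have hst : s ≠ t := fun e => ht (e ▸ hs)
      simp only [a', Function.update_of_ne hst] at h0
      apply hc0
      have := hc.1 ⟨s, hs, rfl⟩
      simp only [h0, le_bot_iff] at this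
      exact this
  have h2 : c'' ≤ i t {ξ} := by
    have := hc''.1 ⟨t, Set.mem_insert _ _, rfl⟩
    simpa only [a', Function.update_self] using this
  have h3 : c'' ≤ c := by
    refine hc.2 ?_
    rintro _ ⟨s, hs, rfl⟩
    have hst : s ≠ t := fun e => ht (e ▸ hs)
    have := hc''.1 ⟨s, Set.mem_insert_of_mem _ hs, rfl⟩
    simpa only [a', Function.update_of_ne hst] using this
  have h4 : i t {ξ} ≤ w := hw ⟨t, rfl⟩
  apply h1
  rw [← le_bot_iff, ← inf_compl_self w]
  exact le_inf (h2.trans h4) (h3.trans hcw)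

theorem not_representable (hn : ℵ₀ ≤ n) (hT : #T = Order.succ n) (hTK : #T < #K) (hK : #K ≤ m)
    (h : IsMinimalProduct m n (fun _ : T => Set K) B i) : ¬ IsMRepresentable.{u, v} m B := by
  classical
  rintro ⟨X, F, Δ, hF, hΔ, f, hsurj, hcompl, hunion, hker⟩
  have hm : ℵ₀ ≤ m := by
    refine hn.trans ((Order.le_succ n).trans ?_)
    rw [← hT]
    exact hTK.le.trans hK
  have hnT : n < #T := by rw [hT]; exact Order.lt_succ n
  have hTm : #T ≤ m := hTK.le.trans hK
  have hnm : n ≤ m := hnT.le.trans hTm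
  have hKne : Nonempty K := by
    rw [← Cardinal.mk_ne_zero_iff]
    exact (pos_of_gt hTK).ne'
  have hTne : Nonempty T := by
    rw [← Cardinal.mk_ne_zero_iff, hT]
    exact (lt_of_lt_of_le Cardinal.aleph0_pos (hn.trans (Order.le_succ n))).ne'
  -- basic facts on `f`
  have hinter : ∀ a ∈ F, ∀ b ∈ F, a ∩ b ∈ F ∧ f (a ∩ b) = f a ⊓ f b := by
    intro a ha b hb
    have hU : aᶜ ∪ bᶜ ∈ F := by
      have := hF.union (ULift Bool) (fun j => cond j.down aᶜ bᶜ)
        (by
          refine le_trans ?_ hm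
          exact (Cardinal.lt_aleph0_of_finite _).le)
        (by rintro ⟨_ | _⟩; exacts [hF.compl b hb, hF.compl a ha])
      have e : (⋃ j : ULift Bool, cond j.down aᶜ bᶜ) = aᶜ ∪ bᶜ := by
        ext x; simp [or_comm]
      rwa [e] at this
    have e : a ∩ b = (aᶜ ∪ bᶜ)ᶜ := by rw [Set.compl_union, compl_compl, compl_compl]
    rw [e]
    refine ⟨hF.compl _ hU, ?_⟩
    rw [hcompl _ hU, hunion _ (hF.compl a ha) _ (hF.compl b hb), hcompl a ha, hcompl b hb,
      compl_sup, compl_compl, compl_compl]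
  have hempty : ∅ ∈ F := by
    have := hF.union (ULift Empty) (fun _ => ∅) (by simp) (fun j => j.down.elim)
    simpa using this
  have hmono : ∀ a ∈ F, ∀ b ∈ F, a ⊆ b → f a ≤ f b := by
    intro a ha b hb hab
    have := hunion a ha b hb
    rw [Set.union_eq_right.2 hab] at this
    rw [this]
    exact le_sup_left
  have hjoin : ∀ (ι : Type u) (a : ι → Set X), #ι ≤ m → (∀ j, a j ∈ F) →
      IsLUB (Set.range fun j => f (a j)) (f (⋃ j, a j)) := by
    intro ι a hι ha
    have hU := hF.union ι a hι ha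
    refine ⟨?_, fun w hw => ?_⟩
    · rintro _ ⟨j, rfl⟩
      exact hmono _ (ha j) _ hU (Set.subset_iUnion a j)
    · obtain ⟨b, hb, rfl⟩ := hsurj w
      have h1 : ∀ j, a j ∩ bᶜ ∈ Δ := by
        intro j
        obtain ⟨h1, h2⟩ := hinter _ (ha j) _ (hF.compl b hb)
        rw [← hker _ h1, h2, hcompl b hb, ← le_bot_iff]
        have := hw ⟨j, rfl⟩
        rw [← inf_compl_self (f b)]
        exact inf_le_inf_right _ this
      have h2 := hΔ.union ι _ hι h1
      rw [← Set.iUnion_inter, ← hker _ (hinter _ hU _ (hF.compl b hb)).1,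
        (hinter _ hU _ (hF.compl b hb)).2, hcompl b hb] at h2
      rw [← compl_compl (f b)]
      exact le_compl_iff_disjoint_right.2 (disjoint_iff.2 h2)
  choose E hE hfE using fun (t : T) (ξ : K) => hsurj (i t {ξ})
  -- the exceptional set
  let N1 : K → Set X := fun ξ => (⋃ t, E t ξ)ᶜ
  let N2 : {p : T × K × K // p.2.1 ≠ p.2.2} → Set X := fun p => E p.1.1 p.1.2.1 ∩ E p.1.1 p.1.2.2
  have hN1 : ∀ ξ, N1 ξ ∈ Δ := by
    intro ξ
    have hU := hF.union T (fun t => E t ξ) hTm (fun t => hE t ξ)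
    rw [← hker _ (hF.compl _ hU), hcompl _ hU, compl_eq_bot]
    have h1 := hjoin T (fun t => E t ξ) hTm (fun t => hE t ξ)
    simp only [hfE] at h1
    exact h1.unique (join_eq_top hn hnm hnT h ξ)
  have hN2 : ∀ p, N2 p ∈ Δ := by
    rintro ⟨⟨t, ξ, η⟩, hp⟩
    simp only [N2]
    obtain ⟨h1, h2⟩ := hinter _ (hE t ξ) _ (hE t η)
    rw [← hker _ h1, h2, hfE, hfE, ← (h.mhom t).inf hm, ← (h.mhom t).bot]
    congr 1
    simp only at hp
    have : ({ξ} : Set K) ∩ {η} = ∅ := by
      rw [Set.singleton_inter_eq_empty, Set.mem_singleton_iff]; exact hp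
    exact this
  have hΔF := hΔ.sub
  have hM1 : (⋃ ξ, N1 ξ) ∈ Δ := hΔ.union K N1 hK hN1
  have hM2 : (⋃ p, N2 p) ∈ Δ := by
    refine hΔ.union _ N2 ?_ hN2
    refine (Cardinal.mk_subtype_le _).trans ?_
    rw [Cardinal.mk_prod, Cardinal.mk_prod, Cardinal.lift_id, Cardinal.lift_id, Cardinal.lift_id]
    exact Cardinal.mul_le_of_le hm hTm (Cardinal.mul_le_of_le hm hK hK)
  have hM : (⋃ ξ, N1 ξ) ∪ (⋃ p, N2 p) ≠ Set.univ := by
    intro e
    have h1 := hunion _ (hΔF hM1) _ (hΔF hM2)
    rw [(hker _ (hΔF hM1)).2 hM1, (hker _ (hΔF hM2)).2 hM2, e, sup_bot_eq,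
      ← Set.compl_empty, hcompl _ hempty] at h1
    have h2 : f ∅ = ⊥ := by
      rw [hker _ hempty]
      exact hΔ.down _ hM1 _ hempty (Set.empty_subset _)
    rw [h2, compl_bot] at h1
    obtain ⟨t⟩ := hTne
    obtain ⟨ξ⟩ := hKne
    have h3 : i t {ξ} = i t ⊥ := by
      have h4 : ∀ b : B, b = ⊥ := fun b => le_bot_iff.1 (h1 ▸ le_top)
      rw [h4 (i t {ξ}), h4 (i t ⊥)]
    exact Set.singleton_ne_empty ξ (h.inj t h3)
  obtain ⟨x, hx⟩ := (Set.ne_univ_iff_exists_notMem _).1 hM
  rw [Set.mem_union, not_or] at hx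
  have hx1 : ∀ ξ, ∃ t, x ∈ E t ξ := by
    intro ξ
    have h1 : x ∉ N1 ξ := fun h' => hx.1 (Set.mem_iUnion.2 ⟨ξ, h'⟩)
    simp only [N1, Set.mem_compl_iff, not_not, Set.mem_iUnion] at h1
    exact h1
  choose g hg using hx1
  have hginj : Function.Injective g := by
    intro ξ η e
    by_contra hne
    refine hx.2 (Set.mem_iUnion.2 ⟨⟨(g ξ, ξ, η), hne⟩, hg ξ, ?_⟩)
    simp only [e]
    exact hg η
  exact absurd (Cardinal.mk_le_of_injective hginj) (not_le.2 hTK)

end neg

/-! ### Existence of the minimal product -/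

section pos

open Heyting

variable (n : Cardinal.{u}) (T K : Type u)

/-- Partial functions from `T` to `K` with at most `n` elements in the domain. -/
def Q : Type u := {p : T → Option K // #{t | p t ≠ none} ≤ n}

variable {n T K}

instance : PartialOrder (Q n T K) where
  le p q := ∀ t ξ, q.1 t = some ξ → p.1 t = some ξ
  le_refl _ _ _ h := h
  le_trans _ _ _ h1 h2 t ξ h := h1 t ξ (h2 t ξ h)
  le_antisymm p q h1 h2 := by
    apply Subtype.ext
    funext t
    rcases e : p.1 t with _ | ξ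
    · rcases e' : q.1 t with _ | η
      · rfl
      · have := h1 t η e'
        rw [e] at this
        simp at this
    · exact (h2 t ξ e).symm

theorem mem_compl_iff (a : LowerSet (Q n T K)) (p : Q n T K) :
    p ∈ (aᶜ : LowerSet (Q n T K)) ↔ ∀ q ≤ p, q ∉ a := by
  constructor
  · intro h q hq hqa
    have h1 : q ∈ aᶜ ⊓ a := ⟨aᶜ.lower hq h, hqa⟩
    rw [compl_inf_self] at h1
    exact h1
  · intro h
    have h1 : LowerSet.Iic p ≤ aᶜ := by
      rw [le_compl_iff_disjoint_right, disjoint_iff]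
      ext q
      constructor
      · rintro ⟨h1, h2⟩
        exact h q h1 h2
      · intro h1; exact h1.elim
    exact h1 (le_refl p)

/-- The complete Boolean algebra of the regular lower sets. -/
abbrev R (n : Cardinal.{u}) (T K : Type u) : Type u := Regular (LowerSet (Q n T K))

theorem mem_reg_iff (a : R n T K) (p : Q n T K) :
    p ∈ (a : LowerSet (Q n T K)) ↔ ∀ q ≤ p, ∃ r ≤ q, r ∈ (a : LowerSet (Q n T K)) := by
  conv_lhs => rw [← a.prop.eq]
  rw [mem_compl_iff]
  refine forall₂_congr fun q hq => ?_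
  rw [mem_compl_iff]
  push Not
  rfl

/-- The regular element given by a set of conditions. -/
def reg (U : Set (Q n T K)) : R n T K := Regular.toRegular (lowerClosure U)

theorem mem_reg (U : Set (Q n T K)) (p : Q n T K) :
    p ∈ (reg U : LowerSet (Q n T K)) ↔ ∀ q ≤ p, ∃ r ≤ q, ∃ s ∈ U, r ≤ s := by
  rw [reg, Regular.coe_toRegular, mem_compl_iff]
  refine forall₂_congr fun q hq => ?_
  rw [mem_compl_iff]
  push Not
  refine exists_congr fun r => and_congr_right fun hr => ?_
  rw [mem_lowerClosure]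

theorem isLUB_reg (S : Set (R n T K)) :
    IsLUB S (reg {p | ∃ a ∈ S, p ∈ (a : LowerSet (Q n T K))}) := by
  constructor
  · intro a ha
    rw [← Regular.coe_le_coe]
    intro p hp
    refine (mem_reg _ p).2 fun q hq => ⟨q, le_refl q, q, ⟨a, ha, ?_⟩, le_refl q⟩
    exact (a : LowerSet (Q n T K)).lower hq hp
  · intro b hb
    rw [← Regular.coe_le_coe]
    intro p hp
    refine (mem_reg_iff b p).2 fun q hq => ?_
    obtain ⟨r, hr, s, ⟨a, ha, hs⟩, hrs⟩ := (mem_reg _ p).1 hp q hq
    exact ⟨r, hr, (b : LowerSet (Q n T K)).lower hrs (Regular.coe_le_coe.2 (hb ha) hs)⟩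

/-- In a Boolean algebra the complement of the join of the complements is the meet. -/
theorem isGLB_of_isLUB_compl {A : Type u} [BooleanAlgebra A] (S : Set A) (a : A)
    (h : IsLUB (compl '' S) a) : IsGLB S aᶜ := by
  constructor
  · intro s hs
    have := h.1 ⟨s, hs, rfl⟩
    exact compl_le_of_compl_le this
  · intro b hb
    rw [← compl_compl b]
    refine compl_le_compl (h.2 ?_)
    rintro _ ⟨s, hs, rfl⟩
    exact compl_le_compl (hb hs)

theorem isLUB_of_isGLB_compl {A : Type u} [BooleanAlgebra A] (S : Set A) (a : A)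
    (h : IsGLB (compl '' S) a) : IsLUB S aᶜ := by
  constructor
  · intro s hs
    have := h.1 ⟨s, hs, rfl⟩
    exact le_compl_of_le_compl this
  · intro b hb
    rw [← compl_compl b]
    refine compl_le_compl (h.2 ?_)
    rintro _ ⟨s, hs, rfl⟩
    exact compl_le_compl (hb hs)

theorem exists_isLUB (S : Set (R n T K)) : ∃ a, IsLUB S a := ⟨_, isLUB_reg S⟩

theorem exists_isGLB (S : Set (R n T K)) : ∃ a, IsGLB S a :=
  ⟨_, isGLB_of_isLUB_compl S _ (isLUB_reg _)⟩

/-- The embedding of the power set of `K` at the coordinate `t`. -/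
def e (n : Cardinal.{u}) {T K : Type u} (t : T) (a : Set K) : R n T K := reg {p | ∃ ξ ∈ a, p.1 t = some ξ}

theorem mem_e (t : T) (a : Set K) (p : Q n T K) :
    p ∈ (e n t a : LowerSet (Q n T K)) ↔ ∀ q ≤ p, ∃ r ≤ q, ∃ ξ ∈ a, r.1 t = some ξ := by
  rw [e, mem_reg]
  refine forall₂_congr fun q hq => exists_congr fun r => and_congr_right fun hr => ?_
  constructor
  · rintro ⟨s, ⟨ξ, hξ, hs⟩, hrs⟩
    exact ⟨ξ, hξ, hrs t ξ hs⟩
  · rintro ⟨ξ, hξ, h⟩
    exact ⟨r, ⟨ξ, hξ, h⟩, le_refl r⟩

open Classical in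
/-- Extension of a condition by one value. -/
theorem exists_ext (hn : ℵ₀ ≤ n) (p : Q n T K) (t : T) (ht : p.1 t = none) (ξ : K) :
    ∃ q ≤ p, q.1 t = some ξ := by
  refine ⟨⟨Function.update p.1 t (some ξ), ?_⟩, ?_, by simp⟩
  · have h1 : {s | Function.update p.1 t (some ξ) s ≠ none} ⊆ insert t {s | p.1 s ≠ none} := by
      intro s hs
      by_cases h : s = t
      · exact Set.mem_insert_iff.2 (Or.inl h)
      · refine Set.mem_insert_of_mem _ ?_
        simpa [Function.update_of_ne h] using hs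
    refine (Cardinal.mk_le_mk_of_subset h1).trans ((Cardinal.mk_insert_le).trans ?_)
    exact Cardinal.add_le_of_le hn p.2 (Cardinal.one_lt_aleph0.le.trans hn)
  · intro s η hs
    have : s ≠ t := by
      rintro rfl
      rw [ht] at hs
      simp at hs
    simpa [Function.update_of_ne this] using hs

theorem e_compl (hn : ℵ₀ ≤ n) [Nonempty K] (t : T) (a : Set K) :
    e n t aᶜ = (e n t a)ᶜ := by
  apply Regular.coe_injective
  rw [Regular.coe_compl]
  ext p
  rw [SetLike.mem_coe, SetLike.mem_coe, mem_compl_iff, mem_e]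
  constructor
  · intro h q hq hqa
    obtain ⟨r, hr, ξ, hξ, hrt⟩ := h q hq
    rw [mem_e] at hqa
    obtain ⟨s, hs, η, hη, hst⟩ := hqa r hr
    have := hs t ξ hrt
    rw [hst] at this
    simp only [Option.some.injEq] at this
    exact hξ (this ▸ hη)
  · intro h q hq
    have h1 := h q hq
    rw [mem_e] at h1
    push Not at h1
    obtain ⟨r, hr, hr'⟩ := h1
    rcases hrt : r.1 t with _ | ξ
    · obtain ⟨ξ⟩ := (inferInstance : Nonempty K)
      obtain ⟨s, hs, hst⟩ := exists_ext hn r t hrt ξ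
      exact ⟨s, hs.trans hr, ξ, fun hξ => hr' s hs ξ hξ hst, hst⟩
    · exact ⟨r, hr, ξ, fun hξ => hr' r (le_refl r) ξ hξ hrt, hrt⟩

theorem e_join (t : T) (S : Set (Set K)) (a : Set K) (h : IsLUB S a) :
    IsLUB (e n t '' S) (e n t a) := by
  have ha : a = ⋃₀ S := h.unique (isLUB_sSup S)
  subst ha
  constructor
  · rintro _ ⟨b, hb, rfl⟩
    rw [← Regular.coe_le_coe]
    intro p hp
    refine (mem_e _ _ _).2 fun q hq => ?_
    obtain ⟨r, hr, ξ, hξ, h1⟩ := (mem_e _ _ _).1 hp q hq
    exact ⟨r, hr, ξ, ⟨b, hb, hξ⟩, h1⟩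
  · intro b hb
    rw [← Regular.coe_le_coe]
    intro p hp
    refine (mem_reg_iff b p).2 fun q hq => ?_
    obtain ⟨r, hr, ξ, ⟨c, hc, hξ⟩, h1⟩ := (mem_e _ _ _).1 hp q hq
    refine ⟨r, hr, Regular.coe_le_coe.2 (hb ⟨c, hc, rfl⟩) ?_⟩
    exact (mem_e _ _ _).2 fun r' hr' => ⟨r', le_refl r', ξ, hξ, hr' t ξ h1⟩

theorem e_meet (hn : ℵ₀ ≤ n) [Nonempty K] (t : T) (S : Set (Set K)) (a : Set K)
    (h : IsGLB S a) : IsGLB (e n t '' S) (e n t a) := by
  have h1 : IsLUB (compl '' S) aᶜ := by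
    refine isLUB_of_isGLB_compl _ _ ?_
    rw [Set.image_image]
    simpa using h
  have h2 := e_join (n := n) t _ _ h1
  rw [Set.image_image] at h2
  have h3 := isGLB_of_isLUB_compl (e n t '' S) _ (by
    rw [Set.image_image]
    simpa only [e_compl hn] using h2)
  rwa [compl_compl] at h3

theorem e_inj (t : T) (hn : ℵ₀ ≤ n) : Function.Injective (e n (K := K) t) := by
  classical
  have key : ∀ a b : Set K, e n t a = e n t b → a ⊆ b := by
    intro a b hab ξ hξ
    have hle : #{s : T | (fun s => if s = t then some ξ else none) s ≠ none} ≤ n := by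
      have h1 : {s : T | (fun s => if s = t then some ξ else none) s ≠ none} ⊆ {t} := by
        intro s hs
        by_contra h
        simp only [Set.mem_singleton_iff] at h
        simp [h] at hs
      refine (Cardinal.mk_le_mk_of_subset h1).trans ?_
      rw [Cardinal.mk_singleton]
      exact Cardinal.one_lt_aleph0.le.trans hn
    let p : Q n T K := ⟨fun s => if s = t then some ξ else none, hle⟩
    have hpt : p.1 t = some ξ := if_pos rfl
    have hp : p ∈ (e n t a : LowerSet (Q n T K)) :=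
      (mem_e _ _ _).2 fun q hq => ⟨q, le_refl q, ξ, hξ, hq t ξ hpt⟩
    rw [hab] at hp
    obtain ⟨r, hr, η, hη, hrt⟩ := (mem_e _ _ _).1 hp p (le_refl p)
    have := hr t ξ hpt
    rw [hrt] at this
    simp only [Option.some.injEq] at this
    exact this ▸ hη
  intro a b h
  exact Set.Subset.antisymm (key a b h) (key b a h.symm)

theorem ne_bot_iff (b : R n T K) : b ≠ ⊥ ↔ ∃ p, p ∈ (b : LowerSet (Q n T K)) := by
  constructor
  · intro h
    by_contra hcon
    push Not at hcon
    apply h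
    apply Regular.coe_injective
    ext p
    exact ⟨fun hp => absurd hp (hcon p), fun hp => hp.elim⟩
  · rintro ⟨p, hp⟩ rfl
    exact hp

theorem e_nonvanishing (T' : Set T) (hT' : #T' ≤ n) (a : T → Set K)
    (ha : ∀ t ∈ T', e n t (a t) ≠ ⊥) (c : R n T K)
    (hc : IsGLB ((fun t => e n t (a t)) '' T') c) : c ≠ ⊥ := by
  classical
  have h1 : ∀ t ∈ T', ∃ ξ, ξ ∈ a t := by
    intro t ht
    obtain ⟨p, hp⟩ := (ne_bot_iff _).1 (ha t ht)
    obtain ⟨r, hr, ξ, hξ, -⟩ := (mem_e _ _ _).1 hp p (le_refl p)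
    exact ⟨ξ, hξ⟩
  let f : T → Option K := fun t => if h : t ∈ T' then some (h1 t h).choose else none
  have hf : #{t | f t ≠ none} ≤ n := by
    refine (Cardinal.mk_le_mk_of_subset ?_).trans hT'
    intro t ht
    by_contra h
    simp [f, h] at ht
  let p : Q n T K := ⟨f, hf⟩
  have hle : reg {p} ≤ c := by
    refine hc.2 ?_
    rintro _ ⟨t, ht, rfl⟩
    rw [← Regular.coe_le_coe]
    intro q hq
    refine (mem_e _ _ _).2 fun q' hq' => ?_
    obtain ⟨r, hr, s, hs, hrs⟩ := (mem_reg _ _).1 hq q' hq'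
    rw [Set.mem_singleton_iff] at hs
    subst hs
    refine ⟨r, hr, (h1 t ht).choose, (h1 t ht).choose_spec, hrs t _ ?_⟩
    change f t = _
    simp only [f, ht, dif_pos]
  rw [ne_bot_iff]
  exact ⟨p, Regular.coe_le_coe.2 hle ((mem_reg _ _).2 fun q hq =>
    ⟨q, le_refl q, p, rfl, hq⟩)⟩

theorem e_minimal (hn : ℵ₀ ≤ n) (b : R n T K) (hb : b ≠ ⊥) : ∃ (T' : Set T) (a : T → Set K),
    #T' ≤ n ∧ (∀ t ∈ T', e n t (a t) ≠ ⊥) ∧
    ∀ c, IsGLB ((fun t => e n t (a t)) '' T') c → c ≤ b := by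
  classical
  obtain ⟨q, hq⟩ := (ne_bot_iff b).1 hb
  refine ⟨{t | q.1 t ≠ none}, fun t => {ξ | q.1 t = some ξ}, q.2, ?_, ?_⟩
  · intro t ht
    rw [ne_bot_iff]
    obtain ⟨ξ, hξ⟩ := Option.ne_none_iff_exists'.1 ht
    exact ⟨q, (mem_e _ _ _).2 fun r hr => ⟨r, le_refl r, ξ, hξ, hr t ξ hξ⟩⟩
  · intro c hc
    rw [← Regular.coe_le_coe]
    intro p hp
    refine (mem_reg_iff b p).2 fun p' hp' => ?_
    -- `p'` and `q` are compatible
    have hcomp : ∀ t ξ η, q.1 t = some ξ → p'.1 t = some η → ξ = η := by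
      intro t ξ η h1 h2
      have h3 : c ≤ e n t {ξ | q.1 t = some ξ} := hc.1 ⟨t, by simp [h1], rfl⟩
      have h4 := Regular.coe_le_coe.2 h3 hp
      obtain ⟨r, hr, ζ, hζ, hrt⟩ := (mem_e _ _ _).1 h4 p' hp'
      have h5 := hr t η h2
      simp only [Set.mem_ofPred_eq] at hζ
      rw [h1] at hζ
      rw [hrt] at h5
      simp only [Option.some.injEq] at hζ h5
      rw [hζ, h5]
    let f : T → Option K := fun t => (q.1 t).elim (p'.1 t) some
    have hf : #{t | f t ≠ none} ≤ n := by
      have h1 : {t | f t ≠ none} ⊆ {t | q.1 t ≠ none} ∪ {t | p'.1 t ≠ none} := by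
        intro t ht
        rcases h : q.1 t with _ | ξ
        · right
          simpa [f, h] using ht
        · left
          simp [h]
      refine (Cardinal.mk_le_mk_of_subset h1).trans ((Cardinal.mk_union_le _ _).trans ?_)
      exact Cardinal.add_le_of_le hn q.2 p'.2
    refine ⟨⟨f, hf⟩, ?_, (b : LowerSet (Q n T K)).lower ?_ hq⟩
    · intro t η h
      rcases h' : q.1 t with _ | ξ
      · simpa [f, h'] using h
      · have := hcomp t ξ η h' h
        simp [f, h', this]
    · intro t ξ h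
      simp [f, h]

/-- The least `m`-subalgebra containing the images of the embeddings, as a set. -/
def D0 (m n : Cardinal.{u}) (T K : Type u) : Set (R n T K) :=
  {x | ∀ D : Set (R n T K), IsMSub m D → (∀ t a, e n t a ∈ D) → x ∈ D}

theorem isMSub_D0 (m : Cardinal.{u}) : IsMSub m (D0 m n T K) where
  compl a ha D hD h := hD.compl a (ha D hD h)
  join S hS hm a ha D hD h := hD.join S (fun x hx => hS hx D hD h) hm a ha
  meet S hS hm a ha D hD h := hD.meet S (fun x hx => hS hx D hD h) hm a ha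

/-- The least `m`-subalgebra containing the images of the embeddings. -/
def C (m n : Cardinal.{u}) (hm : ℵ₀ ≤ m) (T K : Type u) : BooleanSubalgebra (R n T K) where
  carrier := D0 m n T K
  supClosed' a ha b hb := (isMSub_D0 m).join {a, b}
    (by rintro x (rfl | rfl) <;> assumption) (finite_le hm (Set.toFinite _)) _ isLUB_pair
  infClosed' a ha b hb := (isMSub_D0 m).meet {a, b}
    (by rintro x (rfl | rfl) <;> assumption) (finite_le hm (Set.toFinite _)) _ isGLB_pair
  compl_mem' ha := (isMSub_D0 m).compl _ ha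
  bot_mem' := (isMSub_D0 m).join ∅ (Set.empty_subset _) (by simp) _ isLUB_empty

variable {m : Cardinal.{u}} {hm : ℵ₀ ≤ m}

theorem mk_image_coe (S : Set (C m n hm T K)) (hS : #S ≤ m) :
    #((fun x : C m n hm T K => (x : R n T K)) '' S) ≤ m := Cardinal.mk_image_le.trans hS

theorem isLUB_coe_iff (S : Set (C m n hm T K)) (hS : #S ≤ m) (a : C m n hm T K) :
    IsLUB S a ↔ IsLUB ((fun x : C m n hm T K => (x : R n T K)) '' S) (a : R n T K) := by
  have key : ∀ a : C m n hm T K, IsLUB ((fun x : C m n hm T K => (x : R n T K)) '' S)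
      (a : R n T K) → IsLUB S a := by
    intro a h
    refine ⟨fun x hx => h.1 ⟨x, hx, rfl⟩, fun b hb => h.2 ?_⟩
    rintro _ ⟨x, hx, rfl⟩
    exact hb hx
  refine ⟨fun h => ?_, key a⟩
  obtain ⟨b, hb⟩ := exists_isLUB ((fun x : C m n hm T K => (x : R n T K)) '' S)
  have hbD : b ∈ D0 m n T K := (isMSub_D0 m).join _
    (by rintro _ ⟨x, -, rfl⟩; exact x.2) (mk_image_coe S hS) b hb
  have h1 := key ⟨b, hbD⟩ hb
  rw [h.unique h1]
  exact hb

theorem isGLB_coe_iff (S : Set (C m n hm T K)) (hS : #S ≤ m) (a : C m n hm T K) :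
    IsGLB S a ↔ IsGLB ((fun x : C m n hm T K => (x : R n T K)) '' S) (a : R n T K) := by
  have key : ∀ a : C m n hm T K, IsGLB ((fun x : C m n hm T K => (x : R n T K)) '' S)
      (a : R n T K) → IsGLB S a := by
    intro a h
    refine ⟨fun x hx => h.1 ⟨x, hx, rfl⟩, fun b hb => h.2 ?_⟩
    rintro _ ⟨x, hx, rfl⟩
    exact hb hx
  refine ⟨fun h => ?_, key a⟩
  obtain ⟨b, hb⟩ := exists_isGLB ((fun x : C m n hm T K => (x : R n T K)) '' S)
  have hbD : b ∈ D0 m n T K := (isMSub_D0 m).meet _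
    (by rintro _ ⟨x, -, rfl⟩; exact x.2) (mk_image_coe S hS) b hb
  have h1 := key ⟨b, hbD⟩ hb
  rw [h.unique h1]
  exact hb

/-- The embeddings into `C`. -/
def eC (hm : ℵ₀ ≤ m) (t : T) (a : Set K) : C m n hm T K := ⟨e n t a, fun _ _ h => h t a⟩

theorem exists_minimalProduct (hn : ℵ₀ ≤ n) (hnm : n ≤ m) [Nonempty K] :
    ∃ (B : Type u) (_ : BooleanAlgebra B) (i : T → Set K → B),
      IsMinimalProduct m n (fun _ : T => Set K) B i := by
  have hm : ℵ₀ ≤ m := hn.trans hnm
  refine ⟨C m n hm T K, inferInstance, eC hm, ?_⟩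
  have himg : ∀ (t : T) (S : Set (Set K)),
      (fun x : C m n hm T K => (x : R n T K)) '' (eC hm t '' S) = e n t '' S := by
    intro t S
    rw [Set.image_image]
    rfl
  have himg' : ∀ (T' : Set T) (a : T → Set K),
      (fun x : C m n hm T K => (x : R n T K)) '' ((fun t => eC hm t (a t)) '' T') =
      (fun t => e n t (a t)) '' T' := by
    intro t S
    rw [Set.image_image]
    rfl
  have hne : ∀ b : C m n hm T K, b ≠ ⊥ ↔ (b : R n T K) ≠ ⊥ := by
    intro b
    rw [not_iff_not]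
    exact ⟨fun h => by rw [h]; rfl, fun h => Subtype.ext h⟩
  refine ⟨⟨?_, ?_, ?_, ?_, ?_⟩, ?_⟩
  · intro S hS
    constructor
    · obtain ⟨b, hb⟩ := exists_isLUB ((fun x : C m n hm T K => (x : R n T K)) '' S)
      have hbD : b ∈ D0 m n T K := (isMSub_D0 m).join _
        (by rintro _ ⟨x, -, rfl⟩; exact x.2) (mk_image_coe S hS) b hb
      exact ⟨⟨b, hbD⟩, (isLUB_coe_iff S hS ⟨b, hbD⟩).2 hb⟩
    · obtain ⟨b, hb⟩ := exists_isGLB ((fun x : C m n hm T K => (x : R n T K)) '' S)
      have hbD : b ∈ D0 m n T K := (isMSub_D0 m).meet _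
        (by rintro _ ⟨x, -, rfl⟩; exact x.2) (mk_image_coe S hS) b hb
      exact ⟨⟨b, hbD⟩, (isGLB_coe_iff S hS ⟨b, hbD⟩).2 hb⟩
  · intro t
    refine ⟨fun a => Subtype.ext (e_compl hn t a), fun S hS a ha => ?_, fun S hS a ha => ?_⟩
    · rw [isLUB_coe_iff _ (Cardinal.mk_image_le.trans hS), himg]
      exact e_join t S a ha
    · rw [isGLB_coe_iff _ (Cardinal.mk_image_le.trans hS), himg]
      exact e_meet hn t S a ha
  · intro t a b h
    exact e_inj t hn (congrArg Subtype.val h)
  · intro T' hT' a ha c hc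
    rw [hne]
    rw [isGLB_coe_iff _ (Cardinal.mk_image_le.trans (hT'.trans hnm)), himg'] at hc
    exact e_nonvanishing T' hT' a (fun t ht => (hne _).1 (ha t ht)) _ hc
  · intro D hD hgen
    have hD' : IsMSub m ((fun x : C m n hm T K => (x : R n T K)) '' D) := by
      refine ⟨?_, ?_, ?_⟩
      · rintro _ ⟨x, hx, rfl⟩
        exact ⟨xᶜ, hD.compl x hx, rfl⟩
      · intro S hS hSm a ha
        have haD : a ∈ D0 m n T K := (isMSub_D0 m).join S
          (by intro x hx; obtain ⟨y, -, rfl⟩ := hS hx; exact y.2) hSm a ha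
        have hS' : (fun x : C m n hm T K => (x : R n T K)) ''
            ((fun x : C m n hm T K => (x : R n T K)) ⁻¹' S) = S := by
          apply Set.image_preimage_eq_of_subset
          intro x hx
          obtain ⟨y, -, rfl⟩ := hS hx
          exact ⟨y, rfl⟩
        have hcard : #((fun x : C m n hm T K => (x : R n T K)) ⁻¹' S) ≤ m :=
          (Cardinal.mk_preimage_of_injective _ S Subtype.val_injective).trans hSm
        refine ⟨⟨a, haD⟩, hD.join _ ?_ hcard _ ?_, rfl⟩
        · intro x hx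
          obtain ⟨y, hy, hxy⟩ := hS hx
          have : y = x := Subtype.ext hxy
          exact this ▸ hy
        · rw [isLUB_coe_iff _ hcard, hS']
          exact ha
      · intro S hS hSm a ha
        have haD : a ∈ D0 m n T K := (isMSub_D0 m).meet S
          (by intro x hx; obtain ⟨y, -, rfl⟩ := hS hx; exact y.2) hSm a ha
        have hS' : (fun x : C m n hm T K => (x : R n T K)) ''
            ((fun x : C m n hm T K => (x : R n T K)) ⁻¹' S) = S := by
          apply Set.image_preimage_eq_of_subset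
          intro x hx
          obtain ⟨y, -, rfl⟩ := hS hx
          exact ⟨y, rfl⟩
        have hcard : #((fun x : C m n hm T K => (x : R n T K)) ⁻¹' S) ≤ m :=
          (Cardinal.mk_preimage_of_injective _ S Subtype.val_injective).trans hSm
        refine ⟨⟨a, haD⟩, hD.meet _ ?_ hcard _ ?_, rfl⟩
        · intro x hx
          obtain ⟨y, hy, hxy⟩ := hS hx
          have : y = x := Subtype.ext hxy
          exact this ▸ hy
        · rw [isGLB_coe_iff _ hcard, hS']
          exact ha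
    refine Set.eq_univ_of_forall fun x => ?_
    obtain ⟨y, hy, hxy⟩ := x.2 _ hD' (fun t a => ⟨eC hm t a, hgen t a, rfl⟩)
    have : y = x := Subtype.ext hxy
    exact this ▸ hy
  · intro b hb
    obtain ⟨T', a, h1, h2, h3⟩ := e_minimal hn (b : R n T K) ((hne b).1 hb)
    obtain ⟨c, hc⟩ := exists_isGLB ((fun t => e n t (a t)) '' T')
    have hT'm : #((fun t => e n t (a t)) '' T') ≤ m :=
      Cardinal.mk_image_le.trans (h1.trans hnm)
    have hcD : c ∈ D0 m n T K := (isMSub_D0 m).meet _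
      (by rintro _ ⟨t, -, rfl⟩; exact (eC hm t (a t)).2) hT'm c hc
    refine ⟨T', a, ⟨c, hcD⟩, h1, ?_, ?_, h3 c hc⟩
    · rw [isGLB_coe_iff _ (Cardinal.mk_image_le.trans (h1.trans hnm)), himg']
      exact hc
    · rw [hne]
      exact e_nonvanishing T' h1 a h2 c hc

end pos

/-- Let `n` be an infinite cardinal and `m ≥ n⁺⁺`. There is a family of `m`-representable Boolean
`m`-algebras (namely copies of one power set, indexed by a set with `n⁺` elements) which has a
minimal `(m, n)`-product, and no minimal `(m, n)`-product of the family is `m`-representable. -/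
theorem result (n m : Cardinal.{u}) (hn : ℵ₀ ≤ n) (hm : Order.succ (Order.succ n) ≤ m) :
    ∃ (T : Type u) (A : T → Type u) (_ : ∀ t, BooleanAlgebra (A t)),
      (∀ t, Nontrivial (A t) ∧ IsMAlg m (A t) ∧ IsMRepresentable.{u, u} m (A t)) ∧
      (∃ (B : Type u) (_ : BooleanAlgebra B) (i : ∀ t, A t → B), IsMinimalProduct m n A B i) ∧
      ∀ (B : Type u) [BooleanAlgebra B] (i : ∀ t, A t → B), IsMinimalProduct m n A B i →
        ¬ IsMRepresentable.{u, v} m B := by
  obtain ⟨T, hT⟩ : ∃ T : Type u, #T = Order.succ n := ⟨_, Cardinal.mk_out _⟩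
  obtain ⟨K, hK⟩ : ∃ K : Type u, #K = Order.succ (Order.succ n) := ⟨_, Cardinal.mk_out _⟩
  have hKne : Nonempty K := by
    rw [← Cardinal.mk_ne_zero_iff, hK]
    exact (pos_of_gt (Order.lt_succ _)).ne'
  have hTK : #T < #K := by rw [hT, hK]; exact Order.lt_succ _
  refine ⟨T, fun _ => Set K, fun _ => inferInstance, fun _ => ⟨inferInstance, isMAlg_set m K,
    isMRepresentable_set m K⟩, ?_, ?_⟩
  · exact exists_minimalProduct hn ((Order.le_succ n).trans ((Order.le_succ _).trans hm))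
  · intro B _ i h
    exact not_representable hn hT hTK (hK.le.trans hm) h

end Pool.Agent.Results.MP_705fed_lc.NotRepresentable
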